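import Mathlib
import Pool.Agent.H54.PA.El1

/-! # [PA LAT] affine automorphisms with prescribed linear parts -/

set_option autoImplicit false

namespace Pool.Agent.H75.PA

open MvPolynomial Pool.Agent.H54.PA

private theorem inv_mat {K : Type} [Field K] (n : Fin 2 → (Fin 2 → K)) (hn : LinearIndependent K n) :
    ∃ m : Fin 2 → (Fin 2 → K), (∀ i k, m i 0 * n 0 k + m i 1 * n 1 k = if i = k then 1 else 0) ∧
      ∀ i k, n i 0 * m 0 k + n i 1 * m 1 k = if i = k then 1 else 0 := by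
  have hMu : IsUnit (Matrix.of n) := by
    rw [← Matrix.linearIndependent_rows_iff_isUnit]
    exact hn
  have hd : IsUnit (Matrix.of n).det := (Matrix.isUnit_iff_isUnit_det _).1 hMu
  have h1 := Matrix.nonsing_inv_mul (Matrix.of n) hd
  have h2 := Matrix.mul_nonsing_inv (Matrix.of n) hd
  refine ⟨fun i k => (Matrix.of n)⁻¹ i k, fun i k => ?_, fun i k => ?_⟩
  · have h3 := congrFun (congrFun h1 i) k
    rw [Matrix.mul_apply, Fin.sum_univ_two, Matrix.one_apply] at h3
    exact h3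
  · have h3 := congrFun (congrFun h2 i) k
    rw [Matrix.mul_apply, Fin.sum_univ_two, Matrix.one_apply] at h3
    exact h3

private theorem comp_aff {K : Type} [Field K] (n m : Fin 2 → (Fin 2 → K)) (γ : Fin 2 → K) (f g : P K →ₐ[K] P K)
    (hf : ∀ i, f (X i) = C (n i 0) * X 0 + C (n i 1) * X 1 + C (γ i))
    (hg : ∀ i, g (X i) = C (m i 0) * (X 0 - C (γ 0)) + C (m i 1) * (X 1 - C (γ 1)))
    (h : ∀ i k, m i 0 * n 0 k + m i 1 * n 1 k = if i = k then 1 else 0) (i : Fin 2) : f (g (X i)) = X i := by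
  have hfC : ∀ c : K, f (C c) = C c := fun c => f.commutes c
  have h0 := congrArg (C : K → P K) (h i 0)
  have h1 := congrArg (C : K → P K) (h i 1)
  rw [C_add, C_mul, C_mul] at h0 h1
  rw [hg, map_add, map_mul, map_mul, map_sub, map_sub, hfC, hfC, hfC, hfC, hf, hf]
  have a2 : (C (if i = 0 then (1 : K) else 0) * X 0 + C (if i = 1 then (1 : K) else 0) * X 1 : P K) = X i := by
    obtain rfl | rfl : i = 0 ∨ i = 1 := by omega
    · rw [if_pos rfl, if_neg (by decide), C_1, C_0]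
      ring
    · rw [if_neg (by decide), if_pos rfl, C_1, C_0]
      ring
  refine Eq.trans ?_ a2
  linear_combination (X 0 : P K) * h0 + (X 1 : P K) * h1

private theorem comp_aff' {K : Type} [Field K] (n m : Fin 2 → (Fin 2 → K)) (γ : Fin 2 → K) (f g : P K →ₐ[K] P K)
    (hf : ∀ i, f (X i) = C (n i 0) * X 0 + C (n i 1) * X 1 + C (γ i))
    (hg : ∀ i, g (X i) = C (m i 0) * (X 0 - C (γ 0)) + C (m i 1) * (X 1 - C (γ 1)))
    (h : ∀ i k, n i 0 * m 0 k + n i 1 * m 1 k = if i = k then 1 else 0) (i : Fin 2) : g (f (X i)) = X i := by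
  have hgC : ∀ c : K, g (C c) = C c := fun c => g.commutes c
  have h0 := congrArg (C : K → P K) (h i 0)
  have h1 := congrArg (C : K → P K) (h i 1)
  rw [C_add, C_mul, C_mul] at h0 h1
  rw [hf, map_add, map_add, map_mul, map_mul, hgC, hgC, hgC, hg, hg]
  have a2 : (C (if i = 0 then (1 : K) else 0) * (X 0 - C (γ 0)) + C (if i = 1 then (1 : K) else 0) * (X 1 - C (γ 1)) +
      C (γ i) : P K) = X i := by
    obtain rfl | rfl : i = 0 ∨ i = 1 := by omega
    · rw [if_pos rfl, if_neg (by decide), C_1, C_0]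
      ring
    · rw [if_neg (by decide), if_pos rfl, C_1, C_0]
      ring
  refine Eq.trans ?_ a2
  linear_combination (X 0 - C (γ 0) : P K) * h0 + (X 1 - C (γ 1) : P K) * h1

private theorem ex_hom {K : Type} [Field K] (v : Fin 2 → P K) : ∃ f : P K →ₐ[K] P K, ∀ i, f (X i) = v i :=
  ⟨aeval v, fun i => aeval_X v i⟩

/-- affine automorphisms with prescribed linearly independent linear parts -/
theorem exists_aff {K : Type} [Field K] (n : Fin 2 → (Fin 2 → K)) (hn : LinearIndependent K n) (γ : Fin 2 → K) :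
    ∃ a ∈ A K, ∀ i, a (X i) = C (n i 0) * X 0 + C (n i 1) * X 1 + C (γ i) := by
  obtain ⟨m, h1, h2⟩ := inv_mat n hn
  obtain ⟨f, hf⟩ := ex_hom fun i : Fin 2 => (C (n i 0) * X 0 + C (n i 1) * X 1 + C (γ i) : P K)
  obtain ⟨g, hg⟩ := ex_hom fun i : Fin 2 => (C (m i 0) * (X 0 - C (γ 0)) + C (m i 1) * (X 1 - C (γ 1)) : P K)
  have hfg : f.comp g = AlgHom.id K (P K) := algHom_ext fun i => comp_aff n m γ f g hf hg h1 i
  have hgf : g.comp f = AlgHom.id K (P K) := algHom_ext fun i => comp_aff' n m γ f g hf hg h2 i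
  obtain ⟨a, ha'⟩ : ∃ a : Au K, (a : P K →ₐ[K] P K) = f := ⟨_, AlgEquiv.toAlgHom_ofAlgHom f g hfg hgf⟩
  have ha : ∀ p, a p = f p := by
    intro p
    rw [← ha']
    rfl
  refine ⟨a, mem_A.2 ⟨?_, ?_⟩, fun i => ?_⟩
  · rw [ha, hf]
    exact mem_L1.2 ⟨_, _, _, rfl⟩
  · rw [ha, hf]
    exact mem_L1.2 ⟨_, _, _, rfl⟩
  · rw [ha, hf]

end Pool.Agent.H75.PA
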