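import Mathlib

/-! # [PA LAT] a lattice in `K ^ 2` over a principal ideal domain has a basis with two elements -/

set_option autoImplicit false

namespace Pool.Agent.H75.PA

private theorem exists_tau (R K : Type) [CommRing R] [IsDomain R] [Field K] [Algebra R K] [IsFractionRing R K]
    (N : Submodule R (Fin 2 → K)) (T : (Fin 2 → K) →ₗ[K] (Fin 2 → K))
    (hTN : ∀ v ∈ N, ∀ i, T v i ∈ (algebraMap R K).range) :
    ∃ τ : N →ₗ[R] (Fin 2 → R), ∀ (v : N) (i : Fin 2), algebraMap R K (τ v i) = T (v : Fin 2 → K) i := by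
  have hinj : Function.Injective (algebraMap R K) := IsFractionRing.injective R K
  choose t ht using fun (v : N) (i : Fin 2) => hTN v.1 v.2 i
  refine ⟨{ toFun := t, map_add' := ?_, map_smul' := ?_ }, ht⟩
  · intro v w
    funext i
    apply hinj
    rw [ht, Pi.add_apply, map_add, ht, ht, Submodule.coe_add, map_add, Pi.add_apply]
  · intro r v
    funext i
    apply hinj
    rw [ht, Pi.smul_apply, smul_eq_mul, map_mul, RingHom.id_apply, ht, Submodule.coe_smul, ← algebraMap_smul K r (v : Fin 2 → K),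
      map_smul, Pi.smul_apply, smul_eq_mul]

theorem exists_basis (R K : Type) [CommRing R] [IsDomain R] [IsPrincipalIdealRing R] [Field K] [Algebra R K]
    [IsFractionRing R K] (N : Submodule R (Fin 2 → K)) (hN : ∀ v : Fin 2 → K, ∃ r : R, r ≠ 0 ∧ r • v ∈ N)
    (T : (Fin 2 → K) →ₗ[K] (Fin 2 → K)) (hT : Function.Injective T)
    (hTN : ∀ v ∈ N, ∀ i, T v i ∈ (algebraMap R K).range) :
    ∃ n : Fin 2 → (Fin 2 → K), (∀ i, n i ∈ N) ∧ LinearIndependent K n ∧
      ∀ v ∈ N, ∃ r : Fin 2 → R, v = r 0 • n 0 + r 1 • n 1 := by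
  obtain ⟨τ, hτ⟩ := exists_tau R K N T hTN
  have hτi : Function.Injective τ := by
    intro v w h
    apply Subtype.ext
    apply hT
    funext i
    rw [← hτ v i, ← hτ w i, h]
  obtain ⟨m, ⟨b'⟩⟩ := Submodule.nonempty_basis_of_pid (Pi.basisFun R (Fin 2)) (LinearMap.range τ)
  obtain ⟨b, hb⟩ : ∃ b : Module.Basis (Fin m) R N, b = b'.map (LinearEquiv.ofInjective τ hτi).symm := ⟨_, rfl⟩
  have h1 : LinearIndependent R fun i => (b i : Fin 2 → K) :=
    b.linearIndependent.map' N.subtype N.ker_subtype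
  have h2 : LinearIndependent K fun i => (b i : Fin 2 → K) := (LinearIndependent.iff_fractionRing R K).1 h1
  have h3 : ∀ v ∈ N, ∃ c : Fin m → R, v = ∑ i, c i • (b i : Fin 2 → K) := by
    intro v hv
    refine ⟨fun i => b.repr ⟨v, hv⟩ i, ?_⟩
    have h4 := congrArg (Subtype.val) (b.sum_repr ⟨v, hv⟩)
    rw [Submodule.coe_sum] at h4
    exact h4.symm
  have h5 : ⊤ ≤ Submodule.span K (Set.range fun i => (b i : Fin 2 → K)) := by
    intro v _
    obtain ⟨r, hr, hrv⟩ := hN v
    obtain ⟨c, hc⟩ := h3 _ hrv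
    have hr' : algebraMap R K r ≠ 0 := by
      rw [Ne, IsFractionRing.to_map_eq_zero_iff]
      exact hr
    have h6 : v = (algebraMap R K r)⁻¹ • (r • v) := by
      rw [← algebraMap_smul K r v, smul_smul, inv_mul_cancel₀ hr', one_smul]
    rw [h6, hc]
    refine Submodule.smul_mem _ _ (Submodule.sum_mem _ fun i _ => ?_)
    rw [← algebraMap_smul K (c i)]
    exact Submodule.smul_mem _ _ (Submodule.subset_span ⟨i, rfl⟩)
  have h7 : m = 2 := by
    have h8 := Module.finrank_eq_card_basis (Module.Basis.mk h2 h5)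
    rw [Module.finrank_fin_fun, Fintype.card_fin] at h8
    exact h8.symm
  subst h7
  refine ⟨fun i => (b i : Fin 2 → K), fun i => (b i).2, h2, fun v hv => ?_⟩
  obtain ⟨c, hc⟩ := h3 v hv
  exact ⟨c, by rw [hc, Fin.sum_univ_two]⟩

end Pool.Agent.H75.PA
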